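import Pool.Agent.HAR.Stmts

/-!
# HAR REC: the block of a vertex
-/

namespace Pool.Agent.HAR.H56

open Finset Filter Topology

/-- the partitions counted by `hh` -/
def PP {V ι : Type} [DecidableEq V] (c : Finset V → ι) (x : ι → Bool) (U : Finset V) (j : ℕ) :
    Type :=
  {π : Finpartition U // π.parts.card = j ∧ ∀ B ∈ π.parts, B.card = 1 ∨ x (c B) = true}

instance {V ι : Type} [DecidableEq V] (c : Finset V → ι) (x : ι → Bool) (U : Finset V) (j : ℕ) :
    Finite (PP c x U j) := by
  unfold PP
  exact inferInstance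

/-- add a block -/
def ext {V : Type} [DecidableEq V] {U S : Finset V} (hS : S ⊆ U) {v : V} (hv : v ∈ S)
    (ρ : Finpartition (U \ S)) : Finpartition U :=
  ρ.extend (b := S) (c := U) (by
    rintro rfl
    simp at hv) Finset.sdiff_disjoint (by
    rw [Finset.sup_eq_union]
    exact Finset.sdiff_union_of_subset hS)

theorem ext_parts {V : Type} [DecidableEq V] {U S : Finset V} (hS : S ⊆ U) {v : V} (hv : v ∈ S)
    (ρ : Finpartition (U \ S)) : (ext hS hv ρ).parts = insert S ρ.parts := rfl

theorem notMem {V : Type} [DecidableEq V] {U S : Finset V} {v : V} (hv : v ∈ S)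
    (ρ : Finpartition (U \ S)) (B : Finset V) (hB : B ∈ ρ.parts) : v ∉ B := by
  intro h
  have h1 := ρ.le hB h
  rw [Finset.mem_sdiff] at h1
  exact h1.2 hv

theorem notMem' {V : Type} [DecidableEq V] {U S : Finset V} {v : V} (hv : v ∈ S)
    (ρ : Finpartition (U \ S)) : S ∉ ρ.parts := fun h => notMem hv ρ S h hv

theorem rec_ : RecStmt := by
  intro V ι _ c x U v hv j
  classical
  set F := U.powerset.filter (fun S => v ∈ S ∧ (S.card = 1 ∨ x (c S) = true)) with hF
  have hmem : ∀ S, S ∈ F → S ⊆ U ∧ v ∈ S ∧ (S.card = 1 ∨ x (c S) = true) := by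
    intro S hS
    rw [hF, Finset.mem_filter, Finset.mem_powerset] at hS
    exact hS
  have e1 : ∑ S ∈ F, hh c x (U \ S) j = Nat.card (Σ S : F, PP c x (U \ S.1) j) := by
    rw [Nat.card_sigma, ← Finset.sum_coe_sort]
    rfl
  rw [e1]
  symm
  let f : (Σ S : F, PP c x (U \ S.1) j) → PP c x U (j + 1) := fun p =>
    ⟨ext (hmem p.1.1 p.1.2).1 (hmem p.1.1 p.1.2).2.1 p.2.1, by
      rw [ext_parts, Finset.card_insert_of_notMem (notMem' (hmem p.1.1 p.1.2).2.1 p.2.1)]
      exact congrArg (· + 1) p.2.2.1, by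
      intro B hB
      rw [ext_parts, Finset.mem_insert] at hB
      rcases hB with rfl | hB
      · exact (hmem _ p.1.2).2.2
      · exact p.2.2.2 B hB⟩
  have hparts : ∀ p, (f p).1.parts = insert p.1.1 p.2.1.parts := fun p => rfl
  have hinj : Function.Injective f := by
    rintro ⟨⟨S, hS⟩, ρ⟩ ⟨⟨S', hS'⟩, ρ'⟩ h
    have hp : insert S ρ.1.parts = insert S' ρ'.1.parts := by
      have := hparts ⟨⟨S, hS⟩, ρ⟩
      rw [h, hparts] at this
      exact this.symm
    have hvS := (hmem S hS).2.1
    have hvS' := (hmem S' hS').2.1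
    have hSS : S = S' := by
      have : S ∈ insert S' ρ'.1.parts := hp ▸ Finset.mem_insert_self _ _
      rw [Finset.mem_insert] at this
      rcases this with h1 | h1
      · exact h1
      · exact absurd hvS (notMem hvS' ρ'.1 S h1)
    subst hSS
    have hρ : ρ = ρ' := by
      apply Subtype.ext
      apply Finpartition.ext
      have h1 := notMem' hvS ρ.1
      have h2 := notMem' hvS ρ'.1
      rw [← Finset.erase_insert h1, ← Finset.erase_insert h2, hp]
    rw [hρ]
  have hsurj : Function.Surjective f := by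
    rintro ⟨π, hcard, hall⟩
    have hSm : π.part v ∈ π.parts := π.part_mem.2 hv
    have hvS : v ∈ π.part v := π.mem_part hv
    have hSU : π.part v ⊆ U := π.le hSm
    have hSF : π.part v ∈ F := by
      rw [hF, Finset.mem_filter, Finset.mem_powerset]
      exact ⟨hSU, hvS, hall _ hSm⟩
    have hsup : (π.parts.erase (π.part v)).sup id = U \ π.part v := by
      ext y
      rw [Finset.mem_sup, Finset.mem_sdiff]
      constructor
      · rintro ⟨B, hB, hy⟩
        rw [Finset.mem_erase] at hB
        refine ⟨π.le hB.2 hy, fun hy' => hB.1 ?_⟩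
        rw [← π.part_eq_of_mem hB.2 hy, π.part_eq_of_mem hSm hy']
      · rintro ⟨hy, hy'⟩
        refine ⟨π.part y, ?_, π.mem_part hy⟩
        rw [Finset.mem_erase]
        refine ⟨?_, π.part_mem.2 hy⟩
        intro h
        exact hy' (h ▸ π.mem_part hy)
    refine ⟨⟨⟨π.part v, hSF⟩, ⟨π.ofSubset (Finset.erase_subset _ _) hsup, ?_, ?_⟩⟩, ?_⟩
    · show (π.parts.erase (π.part v)).card = j
      rw [Finset.card_erase_of_mem hSm, hcard]
      rfl
    · intro B hB
      exact hall B (Finset.mem_of_mem_erase hB)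
    · apply Subtype.ext
      apply Finpartition.ext
      rw [hparts]
      exact Finset.insert_erase hSm
  exact Nat.card_congr (Equiv.ofBijective f ⟨hinj, hsurj⟩)

end Pool.Agent.HAR.H56
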